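import Pool.Agent.Y710.DR.Core
import Pool.Agent.Y674.CG.XLZ

/-!
# DR-XLF: asymptotics of `XV` near `χ = χ₀` (adapted from Y674/CG/XLZ.lean)
-/

set_option autoImplicit false
set_option linter.all false

namespace Pool.Agent.Y710.DR

open Finset Filter Topology Metric
open Pool.Agent.W711.HT hiding XX
open Pool.Agent.Y472
open Pool.Agent.Y481.DR
open Pool.Agent.Y674.CB (potE_mono rc_open rc_mono rc_norm rc_zero rc_neg bx_mono SJ sj sj1 sj2 sj3)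
open Pool.Agent.Y674.CG (AS rz_mem SDZ.sj)
open Pool.Agent.Y481 (itI itN itG Sep wts cw LI LN)
open scoped Real

/-- XLF -/
theorem xlf : S_XLF := by
  intro hPOT hCR hEL hMW hKB χ₀ ρ₀ c C hZ hbe hS Rd Bd hRd hBd k hk
  obtain ⟨s, hs⟩ : ∃ s : ℂ → ℂ → ℂ → ℂ, s = szz := ⟨_, rfl⟩
  rw [← hs] at hS ⊢
  obtain ⟨ρs, c₂, hρs, hρs1, hc2, HK⟩ := hKB
  obtain ⟨ρ₂, hρ2, -, HM⟩ := hMW χ₀ hZ
  rw [← hs] at HM
  have hρ0 := hS.hρ.1
  obtain ⟨ρ₁, hρ1, hρ12, hρ10⟩ : ∃ ρ₁ : ℝ, 0 < ρ₁ ∧ ρ₁ ≤ ρ₂ ∧ ρ₁ ≤ ρ₀ :=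
    ⟨min ρ₂ ρ₀, lt_min hρ2 hρ0, min_le_left _ _, min_le_right _ _⟩
  have hJ := Pool.Agent.Y674.CG.SDZ.sj hS
  have hA : AS χ₀ ρ₁ (shz χ₀ s) := by
    intro ε hε
    filter_upwards [HM ε hε] with N hN ψ hψ ψ' hψ' χ hχ
    exact hN ψ (rc_mono hρ12 hψ) ψ' (rc_mono hρ12 hψ') _ (rz_mem (rc_mono hρ12 hχ))
  obtain ⟨n, hn⟩ : ∃ n, n = 2 * k := ⟨_, rfl⟩
  have hn2 : 2 ≤ n := by omega
  have hnR : (0 : ℝ) < n := by exact_mod_cast (by omega : 0 < n)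
  have hnR1 : (1 : ℝ) ≤ n := by exact_mod_cast (by omega : 1 ≤ n)
  obtain ⟨R₀, c₀, B₀, hR0, hR00, hR0d, hc0, hB0, hPn⟩ :=
    hPOT χ₀ ρ₀ c C s dzz hbe hS Rd Bd hRd hBd n hn2
  obtain ⟨R₁, hR1, hR10, hR1ρ⟩ : ∃ R₁ : ℝ, 0 < R₁ ∧ R₁ ≤ R₀ ∧ R₁ ≤ ρ₁ :=
    ⟨min R₀ ρ₁, lt_min hR0 hρ1, min_le_left _ _, min_le_right _ _⟩
  obtain ⟨C₁, M₁, hC1, hM1, HCR⟩ := hCR (n + 1) n R₁ c₀ B₀ (bet / 4) (by omega)
  obtain ⟨M₂, hM2, HEL⟩ := hEL (n + 1) n R₁ c₀ B₀ (bet / 4) C₁ (by omega) hC1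
  obtain ⟨r, hr⟩ : ∃ r : ℝ, r = R₁ / 8 := ⟨_, rfl⟩
  have hr0 : 0 < r := by rw [hr]; positivity
  obtain ⟨κ, hκ⟩ : ∃ κ : ℝ, κ = c₂ * min r ρs ^ 2 := ⟨_, rfl⟩
  have hκ0 : 0 < κ := by
    rw [hκ]
    exact mul_pos hc2 (pow_pos (lt_min hr0 hρs) _)
  obtain ⟨τ, hτ, HKε⟩ := HK (κ / (4 * n)) (by positivity)
  -- the box around `χ₀` is in the region of the bound
  obtain ⟨R₃, hR3, hR3a, hR3b⟩ : ∃ R₃ : ℝ, 0 < R₃ ∧ R₃ ≤ 1 / 2 ∧ R₃ ≤ 9 / 5 - χ₀.im :=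
    ⟨min (1 / 2) (9 / 5 - χ₀.im), lt_min (by norm_num) (by linarith [hZ.2.2.2]), min_le_left _ _,
      min_le_right _ _⟩
  -- the radius
  obtain ⟨R, hR, hRR1, hRR3, hRτ, hR_1, hRρ⟩ : ∃ R : ℝ, 0 < R ∧ R ≤ R₁ / 4 ∧ R ≤ R₃ / 2 ∧ R ≤ τ ∧
      R ≤ 1 ∧ R ≤ ρ₀ := by
    refine ⟨min (min (R₁ / 4) (R₃ / 2)) (min τ (min 1 ρ₀)), ?_, ?_, ?_, ?_, ?_, ?_⟩
    · exact lt_min (lt_min (by positivity) (by positivity)) (lt_min hτ (lt_min one_pos hρ0))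
    · exact (min_le_left _ _).trans (min_le_left _ _)
    · exact (min_le_left _ _).trans (min_le_right _ _)
    · exact (min_le_right _ _).trans (min_le_left _ _)
    · exact (min_le_right _ _).trans ((min_le_right _ _).trans (min_le_left _ _))
    · exact (min_le_right _ _).trans ((min_le_right _ _).trans (min_le_right _ _))
  refine ⟨R, c₀ / 2, hR, hR_1, hRρ, by linarith, by positivity, B₀ + n * C₁, n * C₁,
    M₁ + M₂ + 1 + 10 * C₁ + 4 * C₁ / R + 8 * n * C₁ / κ, by positivity, by positivity,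
    by positivity, ?_⟩
  obtain ⟨M, hM⟩ : ∃ M : ℝ, M = M₁ + M₂ + 1 + 10 * C₁ + 4 * C₁ / R + 8 * n * C₁ / κ := ⟨_, rfl⟩
  rw [← hM]
  have p1 : 0 < 4 * C₁ / R := by positivity
  have p2 : 0 < 8 * n * C₁ / κ := by positivity
  have hM_1 : M₁ ≤ M := by rw [hM]; linarith
  have hM_2 : M₂ ≤ M := by rw [hM]; linarith
  have hM_3 : 1 ≤ M := by rw [hM]; linarith
  have hM_4 : 10 * C₁ ≤ M := by rw [hM]; linarith
  have hM_5 : 4 * C₁ / R ≤ M := by rw [hM]; linarith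
  have hM_6 : 8 * n * C₁ / κ ≤ M := by rw [hM]; linarith
  have hM0 : 0 < M := by linarith
  intro ls F hls hDG hlsM
  rw [← hn] at hDG hlsM
  have hPot := potE_mono (hPn (fun j => vy ls j) F hDG) hR1 hR10
  -- the weights
  have hcw : ∀ i < n, M ≤ |(cw (wl ls) i : ℝ)| := hlsM
  have hCM1 : C₁ / M ≤ 1 / 10 := by
    rw [div_le_div_iff₀ hM0 (by norm_num)]
    linarith
  have hCM2 : C₁ / M ≤ R / 4 := by
    rw [div_le_iff₀ hR] at hM_5
    rw [div_le_div_iff₀ hM0 (by norm_num)]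
    linarith
  have hCM3 : n * (C₁ / M) ≤ κ / 2 / 4 := by
    rw [div_le_iff₀ hκ0] at hM_6
    rw [← mul_div_assoc, div_div, div_le_div_iff₀ hM0 (by norm_num)]
    linarith
  have haC : ∀ i < n, C₁ / |(cw (wl ls) i : ℝ)| ≤ C₁ / M := fun i hi =>
    div_le_div_of_nonneg_left hC1.le hM0 (hcw i hi)
  obtain ⟨zz, hz⟩ := HCR _ _ hPot (cw (wl ls)) fun i hi => hM_1.trans (hcw i hi)
  have hlim := HEL _ _ hPot (cw (wl ls)) (fun i hi => hM_2.trans (hcw i hi)) zz hz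
  -- the far part
  have hfar : ∀ᶠ N : ℕ in atTop, ∀ χ : ℂ, |χ.re| ≤ R → |χ.im| ≤ R → ∀ ψ : ℕ → ℂ,
      (∀ j < n, |(ψ j).re| ≤ π ∧ |(ψ j).im| ≤ 1 / N) → (∃ j < n, R₁ / 8 ≤ |(ψ j).re|) →
      ‖Wk n N (χ + χ₀) ψ * YP ls N ψ‖ ≤
        Real.exp (N * (n * (shz χ₀ s 0 0 χ).re - κ / 2)) := by
    have e1 : ∀ᶠ N : ℕ in atTop, 1 / (N : ℝ) ≤ τ :=
      (tendsto_one_div_atTop_nhds_zero_nat).eventually_le_const hτ
    have eY : ∀ᶠ N : ℕ in atTop, ∀ j ∈ range n, ∀ ψ : ℂ, |ψ.re| ≤ π → |ψ.im| ≤ 1 / N →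
        ‖vy ls j N ψ‖ ≤ Real.exp (N * (κ / (4 * n))) := by
      rw [Filter.eventually_all_finset]
      intro j hj
      exact (hDG j (mem_range.1 hj)).sub.gr _ (by positivity)
    filter_upwards [HKε, e1, eventually_ge_atTop 1, eY] with N h2 h3 h4 hYb χ hχ1 hχ2
    have hN : (0 : ℝ) < N := by exact_mod_cast h4
    rintro ψ hψ ⟨j, hj, hj2⟩
    rw [← hr] at hj2
    have hYP : ‖YP ls N ψ‖ ≤ Real.exp (N * (κ / 4)) := by
      unfold YP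
      rw [hls, ← hn, norm_prod]
      refine (prod_le_prod (fun _ _ => norm_nonneg _) fun i hi =>
        hYb i hi (ψ i) (hψ i (mem_range.1 hi)).1 (hψ i (mem_range.1 hi)).2).trans ?_
      rw [prod_const, card_range, ← Real.exp_nat_mul]
      apply Real.exp_le_exp.2
      apply le_of_eq
      field_simp
    rw [norm_mul]
    have hE : (shz χ₀ s 0 0 χ).re = (s0 (χ + χ₀)).re := by
      have h5 : χ ∈ Rc ρ₀ ρ₀ := ⟨by linarith, by linarith⟩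
      have h6 : shz χ₀ s 0 0 χ = s0 (χ + χ₀) := hS.zero _ (rz_mem h5)
      rw [h6]
    have hre : (χ + χ₀).re = χ.re + χ₀.re := Complex.add_re _ _
    have him : (χ + χ₀).im = χ.im + χ₀.im := Complex.add_im _ _
    have hχπ : |(χ + χ₀).re| ≤ 2 * π / 3 := by
      have hp := Real.pi_gt_three
      have h5 := abs_le.1 hχ1
      rw [hre, abs_le]
      constructor <;> linarith [hZ.1, hZ.2.1, h5.1, h5.2]
    have hχi : |(χ + χ₀).im| ≤ 9 / 5 := by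
      have h5 := abs_le.1 hχ2
      rw [him, abs_le]
      constructor <;> linarith [hZ.2.2.1, h5.1, h5.2]
    have hb : ∀ i ∈ range n, ‖kh N (ψ i) (ψ ((i + 1) % n)) (χ + χ₀)‖ ≤
        Real.exp (N * ((shz χ₀ s 0 0 χ).re + κ / (4 * n) - if i = j then κ else 0)) := by
      intro i hi
      rw [mem_range] at hi
      have hi2 : (i + 1) % n < n := Nat.mod_lt _ (by omega)
      refine (h2 (ψ i) (ψ ((i + 1) % n)) _ (hψ i hi).1 ((hψ i hi).2.trans h3) (hψ _ hi2).1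
        ((hψ _ hi2).2.trans h3) hχπ hχi).trans ?_
      apply Real.exp_le_exp.2
      refine mul_le_mul_of_nonneg_left ?_ hN.le
      rw [hE]
      have q1 : 0 ≤ c₂ * min |(ψ ((i + 1) % n)).re| ρs ^ 2 := by positivity
      have q3 : (if i = j then κ else 0) ≤ c₂ * min |(ψ i).re| ρs ^ 2 := by
        split_ifs with hij
        · rw [hκ, hij]
          refine mul_le_mul_of_nonneg_left ?_ hc2.le
          exact pow_le_pow_left₀ (lt_min hr0 hρs).le (min_le_min_right _ hj2) 2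
        · positivity
      linarith
    have hWk : ‖Wk n N (χ + χ₀) ψ‖ ≤ Real.exp (∑ i ∈ range n,
        N * ((shz χ₀ s 0 0 χ).re + κ / (4 * n) - if i = j then κ else 0)) := by
      unfold Wk
      rw [norm_prod]
      refine (prod_le_prod (fun _ _ => norm_nonneg _) hb).trans ?_
      rw [← Real.exp_sum]
    refine (mul_le_mul hWk hYP (norm_nonneg _) (Real.exp_pos _).le).trans ?_
    rw [← Real.exp_add, ← mul_sum, ← mul_add]
    apply Real.exp_le_exp.2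
    refine mul_le_mul_of_nonneg_left ?_ hN.le
    rw [sum_sub_distrib, sum_const, card_range, sum_ite_eq', if_pos (mem_range.2 hj),
      nsmul_eq_mul]
    have e2 : (n : ℝ) * ((shz χ₀ s 0 0 χ).re + κ / (4 * n)) =
        n * (shz χ₀ s 0 0 χ).re + κ / 4 := by field_simp
    rw [e2]
    linarith
  have hO := core hJ hρ10 hA hn2 (by rw [hls, hn]) hDG hR1ρ (by linarith) hPot hC1 hz
    (fun f h1 h2 => hlim f h1 h2 n le_rfl)
    (fun i _ => rfl) hM0 hcw hR hRR1 (by positivity : 0 < κ / 2) hCM3 hfar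
  obtain ⟨G, hG⟩ : ∃ G : ℂ → ℂ, G = fun χ => Uj (SrF (shz χ₀ s) F n) (cw (wl ls)) n
    (zz n (Function.update 0 n χ)) := ⟨_, rfl⟩
  obtain ⟨z, hz'⟩ : ∃ z : ℂ → ℕ → ℂ, z = fun χ => zz n (Function.update 0 n χ) := ⟨_, rfl⟩
  rw [← hG, ← hz'] at hO
  have hsub : Rc R R ⊆ Rc (R₁ / 2) (R₁ / 2) := rc_mono (by linarith)
  refine ⟨G, z, ?_, ?_, hO.mw, ?_, ?_⟩
  · intro χ hχ
    exact (hO.der χ (hsub hχ)).differentiableAt.differentiableWithinAt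
  · intro χ hχ
    refine ⟨(hO.bdd χ (hsub hχ)).trans ?_, ?_⟩
    · have : C₁ / M ≤ C₁ := div_le_self hC1.le hM_3
      have := mul_le_mul_of_nonneg_left this hnR.le
      linarith
    · have := hO.conc χ (hsub hχ)
      linarith
  · intro χ hχ
    have hχ1 := hsub hχ
    refine ⟨?_, ?_, ?_⟩
    · intro j hj
      rw [← hn] at hj ⊢
      have hs1 := hO.sm χ hχ1 j hj
      have hs2 := hs1.1.trans (haC j hj)
      exact ⟨rc_norm (hs2.trans_lt (by linarith)), hs1.2.1, hs2.trans hCM1, hO.crit χ hχ1 j hj⟩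
    · rw [hO.derG χ hχ1, hn]
      refine sum_congr rfl fun j _ => ?_
      unfold shz
      rw [deriv_comp_add_const]
    · rw [hO.val χ hχ1, hn]
      rfl
  · intro m hm hm0
    have hm' : ∀ i < n, m ≤ |(cw (wl ls) i : ℝ)| := fun i hi => hm i (by omega)
    refine ⟨fun χ hχ j hj => ?_, fun χ hχ => ?_⟩
    · rw [← hn] at hj
      refine (hO.sm χ (hsub hχ) j hj).1.trans ?_
      calc C₁ / |(cw (wl ls) j : ℝ)| ≤ C₁ / m := div_le_div_of_nonneg_left hC1.le hm0 (hm' j hj)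
        _ ≤ n * C₁ / m := by
            refine div_le_div_of_nonneg_right ?_ hm0.le
            exact le_mul_of_one_le_left hC1.le hnR1
    · have h := hO.close χ (hsub hχ) m hm0 hm'
      have e : (n : ℂ) * shz χ₀ s 0 0 χ = 2 * k * s 0 0 (χ + χ₀) := by
        unfold shz
        rw [hn]
        push_cast
        ring
      rw [e] at h
      exact h

end Pool.Agent.Y710.DR
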