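import Pool.Agent.Y481.DR.Defs
import Pool.Agent.Y674.CG.Core

/-!
# Asymptotics of `XV`: the core (adapted from Y674/CG/Core.lean)
-/

set_option autoImplicit false
set_option linter.all false

namespace Pool.Agent.Y710.DR

open Finset Filter Topology Metric
open Pool.Agent.W711.HT hiding XX
open Pool.Agent.Y472
open Pool.Agent.Y481.DR
open Pool.Agent.Y674.CB (rc_open rc_mono rc_norm rc_zero rc_neg bx_mono SJ sj sj1 sj2 sj3
  Dr_lastj Dr_midj log_near itG_congr Wk_sep)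
open Pool.Agent.Y674.CG (AS kh_sepy gW gW_sep gW_eq kh_limy)
open Pool.Agent.Y481 (itI itN itG Sep wts cw LI LN)
open scoped Real

/-! ### The kernel of the ring -/

lemma YP_sep {L : ℕ} {ls : List (Vx × Vx)} (h : 2 * ls.length ≤ L)
    (hY : ∀ j < 2 * ls.length, ∀ N, Differentiable ℂ (vy ls j N)) (N : ℕ) : Sep L (YP ls N) := by
  unfold YP
  refine Sep.prod _ fun j hj => ?_
  rw [mem_range] at hj
  exact Sep.var (by omega) (hY j hj N)

lemma YP_congr {ls : List (Vx × Vx)} {N : ℕ} {ψ ψ' : ℕ → ℂ}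
    (h : ∀ i < 2 * ls.length, ψ i = ψ' i) : YP ls N ψ = YP ls N ψ' := by
  unfold YP
  refine prod_congr rfl fun j hj => ?_
  rw [h j (mem_range.1 hj)]

/-- the kernel of the ring as a function of `n + 1` variables -/
noncomputable def gF (v₀ : ℂ) (ls : List (Vx × Vx)) (n N : ℕ) (ψ : ℕ → ℂ) : ℂ :=
  gW v₀ n N ψ * YP ls N ψ

lemma gF_sep (v₀ : ℂ) {n : ℕ} (hn : 1 ≤ n) {ls : List (Vx × Vx)} (hls : 2 * ls.length = n)
    (hY : ∀ j < n, ∀ N, Differentiable ℂ (vy ls j N)) (N : ℕ) : Sep (n + 1) (gF v₀ ls n N) :=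
  (gW_sep v₀ hn N).mul (YP_sep (by omega) (by rw [hls]; exact hY) N)

lemma gF_eq {v₀ : ℂ} {n N : ℕ} {χ : ℂ} {ls : List (Vx × Vx)} (hls : 2 * ls.length = n)
    (ψ ψ' : ℕ → ℂ) (h : ψ n = χ) (h' : ∀ i < n, ψ i = ψ' i) :
    gF v₀ ls n N ψ = Wk n N (χ + v₀) ψ' * YP ls N ψ' := by
  unfold gF
  rw [gW_eq ψ ψ' h h', YP_congr (ls := ls) (ψ := ψ) (ψ' := ψ') (by rw [hls]; exact h')]

/-- limits of the functions of the children -/
lemma Y_lim {R₀ B : ℝ} {Y : ℕ → ℂ → ℂ} {F : ℂ → ℂ} (hD : DG R₀ B Y F) {x : ℕ → ℂ} {x₀ : ℂ}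
    (hx0 : x₀ ∈ Rc R₀ R₀) (hx : Tendsto x atTop (𝓝 x₀)) :
    (∀ᶠ N : ℕ in atTop, Y N (x N) ≠ 0) ∧
    Tendsto (fun N : ℕ => Real.log ‖Y N (x N)‖ / N) atTop (𝓝 (F x₀).re) := by
  have ex := hx.eventually ((rc_open R₀ R₀).mem_nhds hx0)
  refine ⟨?_, ?_⟩
  · filter_upwards [ex, hD.mw 1 one_pos] with N h1 h4
    exact (h4 _ h1).1
  · have hc : ContinuousAt F x₀ := hD.Fan.continuousOn.continuousAt ((rc_open _ _).mem_nhds hx0)
    have hs : Tendsto (fun N => (F (x N)).re) atTop (𝓝 (F x₀).re) :=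
      (Complex.continuous_re.tendsto _).comp (hc.tendsto.comp hx)
    rw [Metric.tendsto_atTop] at hs ⊢
    intro ε hε
    obtain ⟨N₁, hN₁⟩ := hs (ε / 2) (by positivity)
    have h5 := (ex.and (hD.mw (ε / 4) (by positivity))).and (eventually_ge_atTop 1)
    obtain ⟨N₂, hN₂⟩ := eventually_atTop.1 h5
    refine ⟨max N₁ N₂, fun N hN => ?_⟩
    obtain ⟨⟨k1, k4⟩, k5⟩ := hN₂ N ((le_max_right _ _).trans hN)
    have k6 := (k4 _ k1).2
    have k7 := hN₁ N ((le_max_left _ _).trans hN)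
    have hNp : (0 : ℝ) < N := by exact_mod_cast k5
    rw [Real.dist_eq] at k7 ⊢
    have k8 : |Real.log ‖Y N (x N)‖ / N - (F (x N)).re| ≤ ε / 4 := by
      have : Real.log ‖Y N (x N)‖ / N - (F (x N)).re =
          (Real.log ‖Y N (x N)‖ - N * (F (x N)).re) / N := by
        field_simp
      rw [this, abs_div, abs_of_pos hNp, div_le_iff₀ hNp]
      exact k6
    have k9 := abs_sub_le (Real.log ‖Y N (x N)‖ / N) (F (x N)).re (F x₀).re
    linarith

lemma gF_lim {v₀ : ℂ} {ρ₀ ρ₁ : ℝ} {s : ℂ → ℂ → ℂ → ℂ} (hS : SJ ρ₀ s) (h1 : ρ₁ ≤ ρ₀)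
    (H : AS v₀ ρ₁ s) {n : ℕ} (hn : 1 ≤ n) {ls : List (Vx × Vx)} (hls : 2 * ls.length = n)
    {R₀ B : ℝ} {F : ℕ → ℂ → ℂ} (hD : ∀ j < n, DG R₀ B (vy ls j) (F j)) {r : ℝ} (hr1 : r ≤ ρ₁)
    (hr2 : r ≤ R₀) : SeqLim (n + 1) r (fun N => gF v₀ ls n N) (SrF s F n) := by
  intro ψ ψ₀ hψ₀ hψ
  have hm : ∀ i < n + 1, ψ₀ i ∈ Rc ρ₁ ρ₁ := fun i hi => rc_mono hr1 (hψ₀ i hi)
  have key : ∀ j < n, _ := fun j hj => kh_limy hS h1 H (hm j (by omega))
    (hm ((j + 1) % n) ((Nat.mod_lt _ (by omega)).trans (by omega))) (hm n (by omega))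
    (hψ j (by omega)) (hψ ((j + 1) % n) ((Nat.mod_lt _ (by omega)).trans (by omega)))
    (hψ n (by omega))
  have keyY : ∀ j < n, _ := fun j hj => Y_lim (hD j hj) (rc_mono hr2 (hψ₀ j (by omega)))
    (hψ j (by omega))
  have h2 : ∀ᶠ N : ℕ in atTop, ∀ j ∈ range n,
      kh N (ψ N j) (ψ N ((j + 1) % n)) (ψ N n + v₀) ≠ 0 := by
    rw [Filter.eventually_all_finset]
    intro j hj
    exact (key j (mem_range.1 hj)).1
  have h2Y : ∀ᶠ N : ℕ in atTop, ∀ j ∈ range n, vy ls j N (ψ N j) ≠ 0 := by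
    rw [Filter.eventually_all_finset]
    intro j hj
    exact (keyY j (mem_range.1 hj)).1
  have h3 : Tendsto (fun N : ℕ => ∑ j ∈ range n,
      Real.log ‖kh N (ψ N j) (ψ N ((j + 1) % n)) (ψ N n + v₀)‖ / N) atTop
      (𝓝 (∑ j ∈ range n, (s (ψ₀ j) (ψ₀ ((j + 1) % n)) (ψ₀ n)).re)) :=
    tendsto_finsetSum _ fun j hj => (key j (mem_range.1 hj)).2
  have h3Y : Tendsto (fun N : ℕ => ∑ j ∈ range n, Real.log ‖vy ls j N (ψ N j)‖ / N) atTop
      (𝓝 (∑ j ∈ range n, (F j (ψ₀ j)).re)) :=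
    tendsto_finsetSum _ fun j hj => (keyY j (mem_range.1 hj)).2
  have h4 : (SrF s F n ψ₀).re = ∑ j ∈ range n, (s (ψ₀ j) (ψ₀ ((j + 1) % n)) (ψ₀ n)).re +
      ∑ j ∈ range n, (F j (ψ₀ j)).re := by
    unfold SrF Sr
    rw [Complex.add_re, Complex.re_sum, Complex.re_sum]
  rw [h4]
  refine (h3.add h3Y).congr' ?_
  filter_upwards [h2, h2Y] with N hN hNY
  unfold gF gW Wk YP
  rw [hls, norm_mul, norm_prod, norm_prod, Real.log_mul
    (prod_ne_zero_iff.2 fun j hj => norm_ne_zero_iff.2 (hN j hj))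
    (prod_ne_zero_iff.2 fun j hj => norm_ne_zero_iff.2 (hNY j hj)),
    Real.log_prod (fun j hj => norm_ne_zero_iff.2 (hN j hj)),
    Real.log_prod (fun j hj => norm_ne_zero_iff.2 (hNY j hj)), add_div, sum_div, sum_div]

/-! ### Derivatives -/

lemma DrF_last (s : ℂ → ℂ → ℂ → ℂ) (F : ℕ → ℂ → ℂ) (n : ℕ) (y : ℕ → ℂ) :
    DrF s F n n y = Dr s n n y := by
  unfold DrF Dr SrF
  have e : (fun w => Sr s n (Function.update y n w) +
      ∑ j ∈ range n, F j (Function.update y n w j)) =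
      fun w => Sr s n (Function.update y n w) + ∑ j ∈ range n, F j (y j) := by
    funext w
    congr 1
    refine sum_congr rfl fun j hj => ?_
    rw [mem_range] at hj
    rw [Function.update_of_ne (by omega)]
  rw [e, deriv_add_const]

lemma DrF_mid {ρ₀ : ℝ} {s : ℂ → ℂ → ℂ → ℂ} (hS : SJ ρ₀ s) {F : ℕ → ℂ → ℂ} {n : ℕ} (hn : 1 ≤ n)
    {y : ℕ → ℂ} (hy : ∀ i < n + 1, y i ∈ Rc ρ₀ ρ₀) {i : ℕ} (hi : i < n)
    (hF : DifferentiableAt ℂ (F i) (y i)) :
    DrF s F n i y = Dr s n i y + deriv (F i) (y i) := by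
  classical
  unfold DrF Dr SrF
  have hu : ∀ j, DifferentiableAt ℂ (fun w => Function.update y i w j) (y i) := by
    intro j
    by_cases h : j = i
    · subst h
      simp only [Function.update_self]
      exact differentiableAt_id
    · simp only [Function.update_of_ne h]
      exact differentiableAt_const _
  have h1 : DifferentiableAt ℂ (fun w => Sr s n (Function.update y i w)) (y i) := by
    unfold Sr
    refine DifferentiableAt.fun_sum fun j hj => ?_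
    rw [mem_range] at hj
    have h2 : DifferentiableAt ℂ (fun w => (Function.update y i w j,
      Function.update y i w ((j + 1) % n), Function.update y i w n)) (y i) :=
      (hu j).prodMk ((hu _).prodMk (hu n))
    refine DifferentiableAt.comp (g := fun p : ℂ × ℂ × ℂ => s p.1 p.2.1 p.2.2)
      (f := fun w : ℂ => (Function.update y i w j,
      Function.update y i w ((j + 1) % n), Function.update y i w n)) (y i) ?_ h2
    simp only [Function.update_eq_self]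
    exact sj hS (hy j (by omega)) (hy _ ((Nat.mod_lt _ (by omega)).trans (by omega)))
      (hy n (by omega))
  have e : (fun w => Sr s n (Function.update y i w) +
      ∑ j ∈ range n, F j (Function.update y i w j)) =
      fun w => Sr s n (Function.update y i w) +
        (F i w + ∑ j ∈ (range n).erase i, F j (y j)) := by
    funext w
    congr 1
    rw [← add_sum_erase _ _ (mem_range.2 hi), Function.update_self]
    congr 1
    refine sum_congr rfl fun j hj => ?_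
    rw [mem_erase] at hj
    rw [Function.update_of_ne hj.1]
  rw [e, deriv_fun_add h1 (hF.add_const _), deriv_add_const]

/-! ### The core -/

/-- the outcome -/
structure Out (v₀ : ℂ) (R₁ R c₀ B₀ C₁ M : ℝ) (s : ℂ → ℂ → ℂ → ℂ) (n : ℕ) (a : ℕ → ℤ)
    (F : ℕ → ℂ → ℂ) (ls : List (Vx × Vx)) (G : ℂ → ℂ) (z : ℂ → ℕ → ℂ) : Prop where
  der : ∀ χ ∈ Rc (R₁ / 2) (R₁ / 2), HasDerivAt G (DrF s F n n (z χ)) χ
  zn : ∀ χ ∈ Rc (R₁ / 2) (R₁ / 2), z χ n = χ
  sm : ∀ χ ∈ Rc (R₁ / 2) (R₁ / 2), ∀ i < n, ‖z χ i‖ ≤ C₁ / |(a i : ℝ)| ∧ 0 < (z χ i).im ∧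
    C₁ / |(a i : ℝ)| < R₁ / 4
  mem : ∀ χ ∈ Rc (R₁ / 2) (R₁ / 2), z χ ∈ Bx (n + 1) (R₁ / 2)
  crit : ∀ χ ∈ Rc (R₁ / 2) (R₁ / 2), ∀ j < n,
    Complex.I * a ((j + 1) % n) * z χ ((j + 1) % n) / (2 * π) + Complex.I +
      deriv (F ((j + 1) % n)) (z χ ((j + 1) % n)) +
      deriv (fun w => s (z χ j) w χ) (z χ ((j + 1) % n)) +
      deriv (fun w => s w (z χ (((j + 1) % n + 1) % n)) χ) (z χ ((j + 1) % n)) = 0
  derG : ∀ χ ∈ Rc (R₁ / 2) (R₁ / 2),
    deriv G χ = ∑ j ∈ range n, deriv (fun w => s (z χ j) (z χ ((j + 1) % n)) w) χ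
  val : ∀ χ ∈ Rc (R₁ / 2) (R₁ / 2), G χ = ∑ j ∈ range n, (Complex.I * a j * z χ j ^ 2 / (4 * π) +
    Complex.I * z χ j + F j (z χ j) + s (z χ j) (z χ ((j + 1) % n)) χ)
  close : ∀ χ ∈ Rc (R₁ / 2) (R₁ / 2), ∀ m : ℝ, 0 < m → (∀ i < n, m ≤ |(a i : ℝ)|) →
    ‖G χ - n * s 0 0 χ‖ ≤ n * C₁ / m
  bdd : ∀ χ ∈ Rc (R₁ / 2) (R₁ / 2), ‖G χ‖ ≤ B₀ + n * (C₁ / M)
  conc : ∀ χ ∈ Rc (R₁ / 2) (R₁ / 2), (deriv (deriv G) χ).re ≤ -(c₀ / 2)
  mw : MW (fun N χ => XV ls N (χ + v₀)) G (Rc R R)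

theorem core {v₀ : ℂ} {ρ₀ ρ₁ : ℝ} {s : ℂ → ℂ → ℂ → ℂ} (hJ : SJ ρ₀ s) (hρ : ρ₁ ≤ ρ₀) (hA : AS v₀ ρ₁ s)
    {n : ℕ} (hn : 2 ≤ n) {ls : List (Vx × Vx)} (hls : 2 * ls.length = n) {Rd Bd : ℝ}
    {F : ℕ → ℂ → ℂ} (hD : ∀ j < n, DG Rd Bd (vy ls j) (F j)) {R₁ c₀ B₀ p₀ C₁ : ℝ} (hRρ : R₁ ≤ ρ₁) (hRd : R₁ ≤ Rd)
    (hPot : PotE (n + 1) n R₁ c₀ B₀ p₀ (SrF s F n) (DrF s F n)) {a : ℕ → ℤ}
    {zz : ℕ → (ℕ → ℂ) → ℕ → ℂ} (hC1 : 0 < C₁)
    (hz : CrtE (n + 1) n R₁ c₀ B₀ p₀ C₁ (SrF s F n) (DrF s F n) a zz)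
    (hEL : ∀ f : ℕ → (ℕ → ℂ) → ℂ, (∀ N, Sep (n + 1) (f N)) → SeqLim (n + 1) (R₁ / 2) f (SrF s F n) →
      SeqLim (n + 1) (R₁ / 2) (fun N => itN (fun _ => R₁ / 8) a N n (f N))
        (fun ψ => Uj (SrF s F n) a n (zz n ψ)))
    (ha : ∀ i < n, a i = cw (wl ls) i) {M : ℝ} (hM : 0 < M)
    (haM : ∀ i < n, M ≤ |(a i : ℝ)|) {R κ : ℝ} (hR : 0 < R) (hRR : R ≤ R₁ / 4) (hκ : 0 < κ)
    (hκM : n * (C₁ / M) ≤ κ / 4)
    (hfar : ∀ᶠ N : ℕ in atTop, ∀ χ : ℂ, |χ.re| ≤ R → |χ.im| ≤ R → ∀ ψ : ℕ → ℂ,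
      (∀ j < n, |(ψ j).re| ≤ π ∧ |(ψ j).im| ≤ 1 / N) → (∃ j < n, R₁ / 8 ≤ |(ψ j).re|) →
      ‖Wk n N (χ + v₀) ψ * YP ls N ψ‖ ≤ Real.exp (N * (n * (s 0 0 χ).re - κ))) :
    Out v₀ R₁ R c₀ B₀ C₁ M s n a F ls (fun χ => Uj (SrF s F n) a n (zz n (Function.update 0 n χ)))
      (fun χ => zz n (Function.update 0 n χ)) := by
  have hR1 := hPot.hR.1
  have hp₀ : 0 < p₀ := hPot.hp
  have hlim := hEL (fun N => gF v₀ ls n N)
    (fun N => gF_sep v₀ (by omega) hls (fun j hj => (hD j hj).sub.an) N)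
    (gF_lim hJ hρ hA (by omega) hls hD (by linarith) (by linarith))
  -- the function
  obtain ⟨up, hup⟩ : ∃ up : ℂ → ℕ → ℂ, up = fun χ => Function.update (0 : ℕ → ℂ) n χ := ⟨_, rfl⟩
  have hup' : ∀ χ, Function.update (0 : ℕ → ℂ) n χ = up χ := fun χ => by rw [hup]
  simp only [hup']
  have hupn : ∀ χ, up χ n = χ := fun χ => by rw [hup]; exact Function.update_self _ _ _
  have hupi : ∀ χ, ∀ i, i ≠ n → up χ i = 0 := fun χ i hi => by
    rw [hup]; exact Function.update_of_ne hi _ _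
  have hupu : ∀ χ w, Function.update (up χ) n w = up w := fun χ w => by
    rw [hup]; exact Function.update_idem _ _ _
  have hupB : ∀ χ ∈ Rc (R₁ / 2) (R₁ / 2), up χ ∈ Bx (n + 1) (R₁ / 2) := by
    intro χ hχ i hi
    by_cases h : i = n
    · rw [h, hupn]; exact hχ
    · rw [hupi χ i h]; exact rc_zero (by positivity)
  have hyn : ∀ χ ∈ Rc (R₁ / 2) (R₁ / 2), zz n (up χ) n = χ := fun χ hχ => by
    rw [hz.rest n (by omega) (up χ) (hupB χ hχ) n le_rfl, hupn]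
  have hyR : ∀ χ ∈ Rc (R₁ / 2) (R₁ / 2), zz n (up χ) ∈ Bx (n + 1) (R₁ / 2) := by
    intro χ hχ i hi
    by_cases h : i = n
    · rw [h, hyn χ hχ]
      exact hχ
    · have h1 := hz.sm n le_rfl (up χ) (hupB χ hχ) i (by omega)
      exact rc_norm (by linarith [h1.1, h1.2.1])
  have hyB : ∀ χ ∈ Rc (R₁ / 2) (R₁ / 2), ∀ i < n + 1, zz n (up χ) i ∈ Rc ρ₀ ρ₀ := fun χ hχ i hi =>
    rc_mono (by linarith) (hyR χ hχ i hi)
  obtain ⟨G, hG⟩ : ∃ G : ℂ → ℂ, G = fun χ => Uj (SrF s F n) a n (zz n (up χ)) := ⟨_, rfl⟩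
  rw [← hG]
  have hGeq : ∀ χ, G χ = Uj (SrF s F n) a n (zz n (up χ)) := fun χ => by rw [hG]
  have hGd : ∀ χ ∈ Rc (R₁ / 2) (R₁ / 2), HasDerivAt G (DrF s F n n (zz n (up χ))) χ := by
    intro χ hχ
    have h := hz.der n le_rfl (up χ) (hupB χ hχ) n le_rfl (by omega)
    simp only [hupu, hupn] at h
    rw [hG]
    exact h
  have hopen := rc_open (R₁ / 2) (R₁ / 2)
  have hclose : ∀ χ ∈ Rc (R₁ / 2) (R₁ / 2), ∀ m : ℝ, 0 < m → (∀ i < n, m ≤ |(a i : ℝ)|) →
      ‖G χ - n * s 0 0 χ‖ ≤ n * C₁ / m := by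
    intro χ hχ m hm0 hm
    have h := (hz.close n le_rfl (up χ) (hupB χ hχ)).1
    have e1 : SrF s F n (fun i => if i < n then 0 else up χ i) = n * s 0 0 χ := by
      unfold SrF Sr
      have e0 : ∑ j ∈ range n, F j ((fun i => if i < n then 0 else up χ i) j) = 0 := by
        refine sum_eq_zero fun j hj => ?_
        rw [mem_range] at hj
        simp only [if_pos hj]
        exact (hD j hj).F0
      rw [e0, add_zero]
      have : ∀ j ∈ range n, s ((fun i => if i < n then 0 else up χ i) j)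
          ((fun i => if i < n then 0 else up χ i) ((j + 1) % n))
          ((fun i => if i < n then 0 else up χ i) n) = s 0 0 χ := by
        intro j hj
        rw [mem_range] at hj
        simp only [if_pos hj, if_pos (Nat.mod_lt (j + 1) (by omega : 0 < n)), lt_irrefl, if_false,
          hupn]
      rw [sum_congr rfl this, sum_const, card_range, nsmul_eq_mul]
    rw [e1] at h
    have e2 : ∑ i ∈ range n, C₁ / |(a i : ℝ)| ≤ ∑ _i ∈ range n, C₁ / m :=
      sum_le_sum fun i hi => div_le_div_of_nonneg_left hC1.le hm0 (hm i (mem_range.1 hi))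
    rw [sum_const, card_range, nsmul_eq_mul, ← mul_div_assoc] at e2
    rw [hGeq]
    exact h.trans e2
  have hpos : ∀ χ ∈ Rc (R₁ / 2) (R₁ / 2), p₀ / 2 ≤ (G χ).re := by
    intro χ hχ
    rw [hG]
    exact (hz.close n le_rfl (up χ) (hupB χ hχ)).2
  -- the far part
  obtain ⟨Cf, hCf, hfp⟩ := Pool.Agent.Y481.far_part n (cw (wl ls))
  have hr0 : 0 < R₁ / 8 := by positivity
  have hr_π : R₁ / 8 ≤ π := by
    have := Real.pi_gt_three
    have := hPot.hR.2
    linarith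
  have hRe : ∀ χ ∈ Rc (R₁ / 2) (R₁ / 2), n * (s 0 0 χ).re - κ / 4 ≤ (G χ).re := by
    intro χ hχ
    have h1 := hclose χ hχ M hM haM
    rw [mul_div_assoc] at h1
    have h5 := (Complex.abs_re_le_norm _).trans (h1.trans hκM)
    have h6 : (G χ - n * s 0 0 χ).re = (G χ).re - n * (s 0 0 χ).re := by
      rw [Complex.sub_re, ← Complex.ofReal_natCast, Complex.re_ofReal_mul]
    rw [h6, abs_le] at h5
    linarith
  have hfarb : ∀ᶠ N : ℕ in atTop, ∀ χ : ℂ, |χ.re| ≤ R → |χ.im| ≤ R →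
      ‖XV ls N (χ + v₀) - itN (fun _ => R₁ / 8) a N n (gF v₀ ls n N) (up χ)‖ ≤
        Cf * Real.exp (N * (n * (s 0 0 χ).re - κ)) := by
    filter_upwards [hfp (fun _ => R₁ / 8) (fun _ _ => ⟨hr0, hr_π⟩), hfar] with
      N h1 h2 χ hχ1 hχ2
    have h5 := h1 (fun ψ => Wk n N (χ + v₀) ψ * YP ls N ψ)
      (Real.exp (N * (n * (s 0 0 χ).re - κ))) (Real.exp_pos _).le
      ((Wk_sep (by omega) N _).mul (YP_sep (by omega) (by
        rw [hls]; exact fun j hj => (hD j hj).sub.an) N)) (h2 χ hχ1 hχ2)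
    have e2 : XV ls N (χ + v₀) =
        itI (cw (wl ls)) N n (fun ψ => Wk n N (χ + v₀) ψ * YP ls N ψ) 0 := by
      unfold XV
      rw [hls]
    have e3 : itN (fun _ => R₁ / 8) a N n (gF v₀ ls n N) (up χ) =
        itN (fun _ => R₁ / 8) (cw (wl ls)) N n (fun ψ => Wk n N (χ + v₀) ψ * YP ls N ψ) 0 := by
      unfold itN
      refine itG_congr (χ := χ) (fun j hj => ?_) (fun ψ ψ' => gF_eq hls ψ ψ') n le_rfl (up χ) 0
        (hupn χ) fun i hi => hupi χ i (by omega)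
      rw [ha j hj]
    rw [e2, e3]
    exact h5
  -- asymptotics
  obtain ⟨K, hK⟩ : ∃ K : Set ℂ, K = {z : ℂ | |z.re| ≤ R ∧ |z.im| ≤ R} := ⟨_, rfl⟩
  have hKc : IsCompact K := by
    rw [hK]
    refine Metric.isCompact_of_isClosed_isBounded ?_ ?_
    · have h1 : IsClosed {z : ℂ | |z.re| ≤ R} := isClosed_le (by fun_prop) continuous_const
      have h2 : IsClosed {z : ℂ | |z.im| ≤ R} := isClosed_le (by fun_prop) continuous_const
      exact h1.inter h2
    · rw [isBounded_iff_forall_norm_le]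
      refine ⟨2 * R, fun z hz => ?_⟩
      have h1 := Complex.norm_le_abs_re_add_abs_im z
      have h2 := hz.1
      have h3 := hz.2
      linarith
  have hKsub : ∀ z ∈ K, z ∈ Rc (R₁ / 2) (R₁ / 2) := by
    intro z hz
    rw [hK] at hz
    have h2 := hz.1
    have h3 := hz.2
    exact ⟨by linarith, by linarith⟩
  have hseq := Pool.Agent.W583.HT.seq ℂ K hKc
    (fun N z => Real.log ‖XV ls N (z + v₀)‖ / N) (fun z => (G z).re) (by
      intro z hz
      exact (Complex.continuous_re.continuousAt.comp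
        (hGd z (hKsub z hz)).continuousAt).continuousWithinAt) (by
      intro p p₁ hp₁ hp hpt
      have h1 := hKsub p₁ hp₁
      have hnear := hlim (fun N => up (p N)) (up p₁) (hupB p₁ h1) (by
        intro i hi
        by_cases h : i = n
        · rw [h]
          simp only [hupn]
          exact hpt
        · simp only [hupi _ i h]
          exact tendsto_const_nhds)
      have e0 : (fun ψ => Uj (SrF s F n) a n (zz n ψ)) (up p₁) = G p₁ := by rw [hG]
      rw [e0] at hnear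
      have hlow := hRe p₁ h1
      have hps := hpos p₁ h1
      -- continuity of the comparison value
      have hsc : Tendsto (fun N => (s 0 0 (p N)).re) atTop (𝓝 (s 0 0 p₁).re) := by
        have hρ0 : 0 < ρ₀ := by linarith
        have h2 : ContinuousAt (fun w => s 0 0 w) p₁ :=
          (sj3 hJ (rc_zero hρ0) (rc_zero hρ0) (rc_mono (by linarith) h1)).continuousAt
        exact (Complex.continuous_re.tendsto _).comp (h2.tendsto.comp hpt)
      have hnp : (0 : ℝ) < n := by exact_mod_cast (by omega : 0 < n)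
      have hsc2 : ∀ᶠ N : ℕ in atTop, (s 0 0 (p N)).re ≤ (s 0 0 p₁).re + κ / (4 * n) := by
        have := hsc.eventually (gt_mem_nhds (lt_add_of_pos_right (s 0 0 p₁).re
          (by positivity : 0 < κ / (4 * n))))
        filter_upwards [this] with N hN
        exact hN.le
      refine log_near (b := fun N => itN (fun _ => R₁ / 8) a N n (gF v₀ ls n N) (up (p N)))
        (g' := n * (s 0 0 p₁).re - κ / 2) (Cf := Cf) (by linarith) (by linarith) hnear ?_
      filter_upwards [hfarb, hsc2] with N hN hN2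
      have := hp N
      rw [hK] at this
      refine (hN (p N) this.1 this.2).trans (mul_le_mul_of_nonneg_left ?_ hCf.le)
      apply Real.exp_le_exp.2
      refine mul_le_mul_of_nonneg_left ?_ (Nat.cast_nonneg _)
      have h3 := mul_le_mul_of_nonneg_left hN2 hnp.le
      have h4 : (n : ℝ) * ((s 0 0 p₁).re + κ / (4 * n)) = n * (s 0 0 p₁).re + κ / 4 := by field_simp
      rw [h4] at h3
      linarith)
  refine
    { der := hGd
      zn := hyn
      sm := fun χ hχ i hi => ?_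
      mem := hyR
      crit := fun χ hχ j hj => ?_
      derG := fun χ hχ => ?_
      val := fun χ hχ => ?_
      close := hclose
      bdd := fun χ hχ => ?_
      conc := fun χ hχ => ?_
      mw := fun ε hε => ?_ }
  · have h := hz.sm n le_rfl (up χ) (hupB χ hχ) i hi
    refine ⟨h.1, lt_of_lt_of_le ?_ h.2.2.2, h.2.1⟩
    have h0 : (a i : ℝ) ≠ 0 := by
      intro h0
      have := haM i hi
      rw [h0, abs_zero] at this
      linarith
    positivity
  · have hi : (j + 1) % n < n := Nat.mod_lt _ (by omega)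
    have h := hz.crit n le_rfl (up χ) (hupB χ hχ) ((j + 1) % n) hi
    have hFd : DifferentiableAt ℂ (F ((j + 1) % n)) (zz n (up χ) ((j + 1) % n)) :=
      (hD _ hi).Fan.differentiableAt ((rc_open _ _).mem_nhds
        (rc_mono (by linarith) (hyR χ hχ _ (by omega))))
    rw [DrF_mid hJ (by omega) (hyB χ hχ) hi hFd, Dr_midj hJ hn (hyB χ hχ) hj, hyn χ hχ] at h
    rw [← h]
    ring
  · rw [(hGd χ hχ).deriv, DrF_last, Dr_lastj hJ (by omega) (hyB χ hχ), hyn χ hχ]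
  · rw [hGeq]
    unfold Uj SrF Sr
    rw [hyn χ hχ, ← sum_add_distrib, ← sum_add_distrib]
    refine sum_congr rfl fun j hj => ?_
    ring
  · have h1 := (hz.close n le_rfl (up χ) (hupB χ hχ)).1
    rw [← hGeq] at h1
    have h2 : ∑ i ∈ range n, C₁ / |(a i : ℝ)| ≤ ∑ _i ∈ range n, C₁ / M :=
      sum_le_sum fun i hi => div_le_div_of_nonneg_left hC1.le hM (haM i (mem_range.1 hi))
    rw [sum_const, card_range, nsmul_eq_mul] at h2
    have h3 : (fun i => if i < n then 0 else up χ i) ∈ Bx (n + 1) R₁ := by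
      intro i hi
      by_cases h : i < n
      · simp only [if_pos h]; exact rc_zero hR1
      · simp only [if_neg h]
        have : i = n := by omega
        rw [this, hupn]
        exact rc_mono (by linarith) hχ
    have h4 := (hPot.bd _ h3).1
    have h5 := norm_le_insert' (G χ) (SrF s F n (fun i => if i < n then 0 else up χ i))
    linarith
  · have h := hz.conc n le_rfl (up χ) (hupB χ hχ) n le_rfl (by omega)
    simp only [hupu, hupn] at h
    have e : deriv G =ᶠ[𝓝 χ] fun w => DrF s F n n (zz n (up w)) := by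
      filter_upwards [hopen.mem_nhds hχ] with w hw
      exact (hGd w hw).deriv
    rw [e.deriv_eq]
    exact h
  · filter_upwards [hseq (min ε (p₀ / 4)) (lt_min hε (by positivity)), eventually_ge_atTop 1] with
      N hN h1 χ hχ
    have hNp : (0 : ℝ) < N := by exact_mod_cast h1
    have h2 := hN χ (by rw [hK]; exact ⟨hχ.1.le, hχ.2.le⟩)
    have h3 := hpos χ (rc_mono (by linarith) hχ)
    refine ⟨?_, ?_⟩
    · intro h0
      have h4 := h2.trans (min_le_right _ _)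
      simp only [h0, norm_zero, Real.log_zero, zero_div, zero_sub, abs_neg] at h4
      have h5 := le_abs_self (G χ).re
      linarith
    · have h4 := h2.trans (min_le_left _ _)
      have h5 : Real.log ‖XV ls N (χ + v₀)‖ / N - (G χ).re =
          (Real.log ‖XV ls N (χ + v₀)‖ - N * (G χ).re) / N := by
        field_simp
      rw [h5, abs_div, abs_of_pos hNp, div_le_iff₀ hNp] at h4
      exact h4

end Pool.Agent.Y710.DR
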